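import Pool.Agent.helper44.SC.Gard9
import Pool.Agent.helper69.SN.SpecA

/-!
Rows aSUP, aEQV, aDNN, aHYP of project sn.
-/

set_option autoImplicit false

open Polynomial Set Filter Topology

namespace Pool.Agent.helper44.SN

open GTH
open Pool.Agent.helper83.SC (mD)
open Pool.Agent.helper69.SN

theorem sc_one {m n : ℕ} (B : Fin n → Mat m) : sc (fun _ => 1) B = B := by
  funext i
  simp [sc]

theorem add_one_val {m : ℕ} {n : ℕ} (p : SymM m × (Fin n → ℝ)) (t : ℝ) :
    (p + t • ((oneM m, 0) : SymM m × (Fin n → ℝ))).1.1 = p.1.1 + t • (1 : Mat m) := rfl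

theorem add_one_snd {m : ℕ} {n : ℕ} (p : SymM m × (Fin n → ℝ)) (A : SymM m) (t : ℝ) :
    (p + t • ((A, 0) : SymM m × (Fin n → ℝ))).2 = p.2 := by
  funext i
  simp

/-- the cone `GG` is the closed cone of the form. -/
theorem mem_GG_iff {m n : ℕ} {B : Fin n → Mat m} (hB : Psd B) (p : SymM m × (Fin n → ℝ)) :
    p.1.1 ∈ GG (sc p.2 B) ↔ p ∈ GamC (MF hB) (oneM m, 0) := by
  obtain ⟨h1, h2, h3⟩ := MF_hyp hB
  constructor
  · intro hp ε hε t ht
    rw [← (embI (embM m) (Fin n)).smul, ← (embI (embM m) (Fin n)).add, ← rv_ne, MF_rv,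
      add_one_snd, add_one_snd, add_one_val, add_one_val, add_assoc, ← add_smul]
    have h4 := hp.2 (ε + t) (by linarith)
    have h5 : 0 < (ε + t) ^ m := by positivity
    exact (lt_of_lt_of_le h5 h4).ne'
  · intro hp
    refine ⟨p.1.2, fun t ht => ?_⟩
    have h4 : t • ((oneM m, 0) : SymM m × (Fin n → ℝ)) ∈ GamC (MF hB) (oneM m, 0) :=
      GamC.smul h1 (Gam.sub_GamC h1.mem) ht
    have h5 := GamC.mono h1 (by rw [h2]; exact one_pos) h4 hp
    rw [rv_smul, h2, mul_one, add_comm, MF_rv, add_one_snd, add_one_val] at h5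
    exact h5

/-- strict positivity means the open cone. -/
theorem mem_GamC_dir {m n : ℕ} {B : Fin n → Mat m} (hB : Psd B) (p : SymM m × (Fin n → ℝ))
    (P : SymM m) (hP : P.1.PosDef) :
    p ∈ GamC (MF hB) (oneM m, 0) ↔ ∀ t : ℝ, 0 < t → 0 < Ph (sc p.2 B) (p.1.1 + t • P.1) := by
  obtain ⟨h1, h2, h3⟩ := MF_hyp hB
  have hPG : ((P, 0) : SymM m × (Fin n → ℝ)) ∈ Gam (MF hB) (oneM m, 0) :=
    h3 _ hP (fun i => le_rfl)
  have hval : ∀ t : ℝ, rv (MF hB) (p + t • ((P, 0) : SymM m × (Fin n → ℝ))) =
      Ph (sc p.2 B) (p.1.1 + t • P.1) := by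
    intro t
    rw [MF_rv, add_one_snd]
    rfl
  rw [← GamC.eq h1 hPG]
  constructor
  · intro hp t ht
    rw [← hval]
    have h4 := hp t ht
    rw [Gam.eq h1 hPG] at h4
    exact Gam.pos h1 (by rw [h2]; exact one_pos) h4
  · intro hp ε hε t ht
    rw [← (embI (embM m) (Fin n)).smul, ← (embI (embM m) (Fin n)).add, ← rv_ne, add_assoc,
      ← add_smul, hval]
    exact (hp (ε + t) (by linarith)).ne'

theorem aEQV_of : aEQV_stmt := by
  intro m n B hB M P hM hP
  have hPs : P.IsSymm := by
    have := hP.isHermitian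
    ext a b
    have h := congrFun (congrFun this a) b
    simpa using h
  have h1 := mem_GG_iff hB ((⟨M, hM⟩ : SymM m), fun _ => (1 : ℝ))
  have h2 := mem_GamC_dir hB ((⟨M, hM⟩ : SymM m), fun _ => (1 : ℝ)) (⟨P, hPs⟩ : SymM m) hP
  simp only [sc_one] at h1 h2
  exact h1.trans h2

theorem aSUP_aux {m n : ℕ} {B : Fin n → Mat m} (hB : Psd B) (p q : SymM m × (Fin n → ℝ))
    (hp : p.1.1 ∈ GG (sc p.2 B)) (hq : q.1.1 ∈ GG (sc q.2 B)) :
    (p + q).1.1 ∈ GG (sc (p + q).2 B) ∧ Ph (sc p.2 B) p.1.1 ≤ Ph (sc (p + q).2 B) (p + q).1.1 := by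
  obtain ⟨h1, h2, h3⟩ := MF_hyp hB
  have hM' := (mem_GG_iff hB p).1 hp
  have hN' := (mem_GG_iff hB q).1 hq
  have h4 := GamC.add h1 hM' hN'
  have h5 := GamC.mono h1 (by rw [h2]; exact one_pos) hM' hN'
  refine ⟨(mem_GG_iff hB (p + q)).2 h4, ?_⟩
  rw [MF_rv, MF_rv] at h5
  exact h5

theorem pair_add {m n : ℕ} (M N : SymM m) (lam mu : Fin n → ℝ) :
    ((M, lam) + (N, mu) : SymM m × (Fin n → ℝ)).1.1 = M.1 + N.1 ∧
      ((M, lam) + (N, mu) : SymM m × (Fin n → ℝ)).2 = fun i => lam i + mu i := ⟨rfl, rfl⟩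

theorem aSUP_of : aSUP_stmt := by
  intro m n B hB lam mu _ _ M N hM hN
  have h := aSUP_aux hB ((⟨M, hM.1⟩ : SymM m), lam) ((⟨N, hN.1⟩ : SymM m), mu) hM hN
  obtain ⟨e1, e2⟩ := pair_add (⟨M, hM.1⟩ : SymM m) (⟨N, hN.1⟩ : SymM m) lam mu
  rw [e1, e2] at h
  exact h

/-- `rv F x + ∂_a F (x) ≤ rv F (x + a)` on the closed cone. -/
theorem taylor_one {V W : Type*} [AddCommGroup V] [Module ℝ V] [AddCommGroup W] [Module ℂ W]
    {e : Emb V W} {s : ℕ} {F : Form e s} {E x a : V} (h : Hyp F E) (hE : 0 < rv F E)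
    (hx : x ∈ GamC F E) (ha : a ∈ GamC F E) :
    rv F x + ∑ j, F.re (Function.update (fun _ => x) j a) ≤ rv F (x + a) := by
  have h1 : rv F (x + a) = ∑ S : Finset (Fin s), F.re (S.piecewise (fun _ => a) (fun _ => x)) := by
    rw [← F.re_const, ← MultilinearMap.map_add_univ]
    congr 1
    funext i
    simp [add_comm]
  rw [h1]
  set T : Finset (Finset (Fin s)) := insert ∅ (Finset.univ.image fun j : Fin s => ({j} : Finset (Fin s))) with hT
  have h2 : ∑ S ∈ T, F.re (S.piecewise (fun _ => a) (fun _ => x)) ≤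
      ∑ S : Finset (Fin s), F.re (S.piecewise (fun _ => a) (fun _ => x)) := by
    refine Finset.sum_le_sum_of_subset_of_nonneg (Finset.subset_univ _) fun S _ _ => ?_
    refine GamC.mixed_nonneg h hE _ fun i => ?_
    by_cases hi : i ∈ S
    · simpa [hi] using ha
    · simpa [hi] using hx
  refine le_trans (le_of_eq ?_) h2
  rw [hT, Finset.sum_insert (by simp), Finset.sum_image (fun i _ j _ h => Finset.singleton_injective h)]
  have h3 : rv F x = F.re ((∅ : Finset (Fin s)).piecewise (fun _ => a) (fun _ => x)) := by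
    rw [← F.re_const, Finset.piecewise_empty]
  rw [← h3]
  congr 1
  refine Finset.sum_congr rfl fun j _ => ?_
  congr 1
  funext i
  by_cases hi : i = j
  · subst hi
    simp
  · simp [hi]

theorem aDNN_of : aDNN_stmt := by
  intro m n B hB A M hA hM
  obtain ⟨h1, h2, h3⟩ := MF_hyp hB
  have hAs : A.IsSymm := by
    have := hA.isHermitian
    ext a b
    have h := congrFun (congrFun this a) b
    simpa using h
  set a : SymM m := ⟨A, hAs⟩ with ha
  set p : SymM m × (Fin n → ℝ) := ((⟨M, hM.1⟩ : SymM m), fun _ => (1 : ℝ)) with hp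
  have hM' : p ∈ GamC (MF hB) (oneM m, 0) := by
    rw [← mem_GG_iff, hp]
    simp only [sc_one]
    exact hM
  have haC : ((a, 0) : SymM m × (Fin n → ℝ)) ∈ GamC (MF hB) (oneM m, 0) :=
    MF_psd hB _ hA (fun i => le_rfl)
  have hd : ∀ r, r ≤ m → dPh B r A M =
      (m.descFactorial r : ℝ) * (MF hB).lstR ((List.replicate r a).map fun A => (A, 0)) p := by
    intro r hr
    have := MF_dPh hB r hr a p
    simp only [hp, sc_one] at this
    exact this
  have hnn : ∀ r, 0 ≤ dPh B r A M := by
    intro r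
    by_cases hr : r ≤ m
    · rw [hd r hr]
      refine mul_nonneg (Nat.cast_nonneg _) ?_
      unfold Form.lstR
      refine GamC.mixed_nonneg h1 (by rw [h2]; exact one_pos) _ fun j => ?_
      rw [List.map_replicate]
      by_cases hj : (j : ℕ) < r
      · rw [List.getD_replicate _ hj]
        exact haC
      · rw [List.getD_eq_default _ _ (by simpa using hj)]
        exact hM'
    · unfold dPh
      refine le_of_eq (Finset.sum_eq_zero fun T _ => ?_).symm
      rw [Nat.descFactorial_eq_zero_iff_lt.2 (by omega : m < T.card + r)]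
      simp
  refine ⟨hnn, ?_⟩
  rcases Nat.eq_zero_or_pos m with hm | hm
  · -- `m = 0`
    subst hm
    have h4 : dPh B 1 A M = 0 := by
      unfold dPh
      refine Finset.sum_eq_zero fun T _ => ?_
      rw [Nat.descFactorial_eq_zero_iff_lt.2 (by omega : 0 < T.card + 1)]
      simp
    have h5 : M + A = M := by
      ext i
      exact i.elim0
    rw [h4, h5, add_zero]
  · have h4 := taylor_one h1 (by rw [h2]; exact one_pos) hM' haC
    have h5 : rv (MF hB) p = Ph B M := by
      rw [MF_rv, hp]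
      simp only [sc_one]
    have h6 : rv (MF hB) (p + (a, 0)) = Ph B (M + A) := by
      rw [MF_rv, hp]
      have h7 : ((((⟨M, hM.1⟩ : SymM m), fun _ => (1 : ℝ)) : SymM m × (Fin n → ℝ)) +
        ((a, 0) : SymM m × (Fin n → ℝ))).2 = fun _ => (1 : ℝ) := by
        funext i
        simp
      rw [h7, sc_one]
      rfl
    have h8 : dPh B 1 A M = ∑ j, (MF hB).re (Function.update (fun _ => p) j (a, 0)) := by
      rw [hd 1 hm]
      have h9 : ∀ j : Fin m, (MF hB).re (Function.update (fun _ => p) j (a, 0)) =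
          (MF hB).lstR ((List.replicate 1 a).map fun A => (A, 0)) p := by
        intro j
        have h10 := (MF hB).lst_update [] ((embI (embM m) (Fin n)).f p)
          ((embI (embM m) (Fin n)).f (a, 0)) j (by simp)
        have h11 : (((MF hB).re (Function.update (fun _ => p) j (a, 0)) : ℝ) : ℂ) =
            (((MF hB).lstR ((List.replicate 1 a).map fun A => (A, 0)) p : ℝ) : ℂ) := by
          rw [Form.re_coe, Form.lstR_coe]
          rw [show ((List.replicate 1 a).map fun A => ((A, 0) : SymM m × (Fin n → ℝ))).map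
            (embI (embM m) (Fin n)).f = [(embI (embM m) (Fin n)).f (a, 0)] from rfl, ← h10]
          congr 1
          funext k
          by_cases hk : k = j
          · subst hk
            simp
          · rw [Function.update_of_ne hk, Function.update_of_ne hk]
            simp
        exact_mod_cast h11
      rw [Finset.sum_congr rfl (fun j _ => h9 j), Finset.sum_const, Finset.card_univ,
        Fintype.card_fin, nsmul_eq_mul, Nat.descFactorial_one]
    rw [h5, h6, ← h8] at h4
    exact h4

theorem aHYP_of : aHYP_stmt := by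
  intro m n B hB lam M P hM hP
  obtain ⟨h1, h2, h3⟩ := MF_hyp hB
  have hPs : P.IsSymm := by
    have := hP.isHermitian
    ext a b
    have h := congrFun (congrFun this a) b
    simpa using h
  set p : SymM m × (Fin n → ℝ) := ((⟨M, hM⟩ : SymM m), lam) with hp
  set q : SymM m × (Fin n → ℝ) := ((⟨P, hPs⟩ : SymM m), 0) with hq
  have hqG : q ∈ Gam (MF hB) (oneM m, 0) := h3 _ hP (fun i => le_rfl)
  have hHq : Hyp (MF hB) q := h1.change hqG
  have hdq : dg (MF hB).B ((embI (embM m) (Fin n)).f q) ≠ 0 := Gam.self hqG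
  set pl := pol (MF hB).B ((embI (embM m) (Fin n)).f p) ((embI (embM m) (Fin n)).f q) with hpl
  have hs : pl.Splits := IsAlgClosed.splits _
  have hroots : ∀ r ∈ pl.roots, r.im = 0 := by
    intro r hr
    have h4 : pl.eval r = 0 := isRoot_of_mem_roots hr
    by_contra hcon
    rw [hpl, pol_eval] at h4
    exact hHq.ne p r hcon h4
  have hcard : pl.roots.toList.length = m := by
    rw [Multiset.length_toList, ← hs.natDegree_eq_card_roots, hpl, pol_deg _ _ _ hdq]
  have hval : rv (MF hB) q = P.det := by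
    rw [MF_rv, hq]
    have h4 : sc (0 : Fin n → ℝ) B = fun _ => 0 := by
      funext i
      simp [sc]
    simp only [h4]
    have h5 : Ph (fun _ : Fin n => (0 : Mat m)) P = rv (MF hB) q := by
      rw [MF_rv, hq]
      simp only [h4]
    rw [h5]
    -- the value at `λ = 0`
    have h6 := MF_lst hB [] (by simp) q
    have h7 : (MF hB).lstR ([].map fun A => (A, 0)) q = rv (MF hB) q := by
      unfold Form.lstR
      rw [← Form.re_const]
      congr 1
    rw [h7] at h6
    rw [h6, Finset.sum_eq_single ∅]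
    · simp only [Finset.prod_empty, List.length_nil, Nat.sub_zero, Finset.card_empty,
        Nat.descFactorial_zero, Nat.cast_one, mul_one, one_mul, Finset.sort_empty, List.map_nil,
        List.append_nil, List.getD_nil, hq]
      exact Pool.Agent.helper83.SC.mD_const P
    · intro T _ hT
      obtain ⟨i, hi⟩ := Finset.nonempty_iff_ne_empty.2 hT
      rw [Finset.prod_eq_zero hi (by simp [hq])]
      simp
    · intro h
      exact absurd (Finset.mem_univ _) h
  refine ⟨fun l => (pl.roots.toList.get (Fin.cast hcard.symm l)).re, fun t => ?_⟩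
  have h4 : ((Ph (sc lam B) (M + t • P) : ℝ) : ℂ) = pl.eval (t : ℂ) := by
    have h5 : Ph (sc lam B) (M + t • P) = rv (MF hB) (p + t • q) := by
      rw [MF_rv]
      have h6 : (p + t • q).2 = lam := by
        funext i
        simp [hp, hq]
      rw [h6]
      rfl
    rw [h5, rv_coe, (embI (embM m) (Fin n)).add, (embI (embM m) (Fin n)).smul, hpl, pol_eval]
  have h5 : ((P.det * ∏ l : Fin m, (t - (pl.roots.toList.get (Fin.cast hcard.symm l)).re) : ℝ) : ℂ)
      = pl.eval (t : ℂ) := by
    have hlc : pl.leadingCoeff = ((P.det : ℝ) : ℂ) := by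
      rw [hpl, pol_lc _ _ _ hdq, ← rv_coe, hval]
    rw [hs.eval_eq_prod_roots, hlc]
    push_cast
    congr 1
    have h6 : (pl.roots.map fun x => (t : ℂ) - x) =
        ((List.ofFn fun l : Fin m => (t : ℂ) -
          (pl.roots.toList.get (Fin.cast hcard.symm l)) : List ℂ) : Multiset ℂ) := by
      have h7 : (List.ofFn fun l : Fin m => (t : ℂ) -
          (pl.roots.toList.get (Fin.cast hcard.symm l))) =
          pl.roots.toList.map (fun x => (t : ℂ) - x) := by
        apply List.ext_getElem
        · simp [hcard]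
        · intro i h8 h9
          simp
      rw [h7, ← Multiset.map_coe, Multiset.coe_toList]
    rw [h6, Multiset.prod_coe, List.prod_ofFn]
    refine Finset.prod_congr rfl fun l _ => ?_
    congr 1
    set r := pl.roots.toList.get (Fin.cast hcard.symm l) with hr
    have h8 : r ∈ pl.roots := by
      rw [← Multiset.mem_toList]
      exact List.get_mem _ _
    apply Complex.ext
    · simp
    · simpa using (hroots r h8).symm
  have h6 := h4.trans h5.symm
  exact_mod_cast h6

end Pool.Agent.helper44.SN
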